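import Pool.Agent.N89.HG.Stm

/-!
# Project HG (helper89), part GRPG: all classes imply the whole group (helper768)
-/

set_option autoImplicit false

namespace Pool.Agent.N768.HG.GRPG

open Polynomial NumberField Pool.Agent.N89.HX Pool.Agent.N89.HG

/-- a proper subgroup of a finite group does not meet all the conjugacy classes (Jordan) -/
theorem top_of_conj {G : Type*} [Group G] [Finite G] (H : Subgroup G)
    (h : ∀ g : G, ∃ c : G, c⁻¹ * g * c ∈ H) : H = ⊤ := by
  set F : (G ⧸ H) × H → G := fun z => z.1.out * z.2 * z.1.out⁻¹ with hF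
  have hsurj : Function.Surjective F := by
    intro g
    obtain ⟨c, hc⟩ := h g
    obtain ⟨k, hk⟩ := QuotientGroup.mk_out_eq_mul H c
    refine ⟨((c : G ⧸ H), ⟨(k : G)⁻¹ * (c⁻¹ * g * c) * k,
      H.mul_mem (H.mul_mem (H.inv_mem k.2) hc) k.2⟩), ?_⟩
    simp only [hF]
    rw [hk]
    group
  have hcard : Nat.card ((G ⧸ H) × H) ≤ Nat.card G := by
    rw [Nat.card_prod, ← Subgroup.card_eq_card_quotient_mul_card_subgroup]
  have hbij := hsurj.bijective_of_nat_card_le hcard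
  rw [Subgroup.eq_top_iff']
  intro g
  have h1 : F ((g : G ⧸ H), 1) = F (((1 : G) : G ⧸ H), 1) := by
    simp [hF]
  have h2 := hbij.1 h1
  have h3 : ((g : G) : G ⧸ H) = ((1 : G) : G ⧸ H) := congrArg Prod.fst h2
  rw [eq_comm, QuotientGroup.eq] at h3
  simpa using h3

section

variable {M : Type} [Field M] {e : ℕ}

/-- `ω` which separates the permutation `ρ` from the elements of a finite family -/
theorem exists_omega [Infinite M] {ι : Type} [Fintype ι] (W : Fin e → M)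
    (hW : Function.Injective W) (ρ : Equiv.Perm (Fin e)) (p : ι → Equiv.Perm (Fin e))
    (hne : ∀ a, p a ≠ ρ) : ∃ ω : Fin e → M, ∀ a, ∑ i, ω i * (W (ρ i) - W (p a i)) ≠ 0 := by
  classical
  obtain ⟨P, hP⟩ : ∃ P : ι → M[X], P = fun a => ∑ i : Fin e, C (W (ρ i) - W (p a i)) * X ^ (i : ℕ) :=
    ⟨_, rfl⟩
  have hcoeff : ∀ a (j : Fin e), (P a).coeff j = W (ρ j) - W (p a j) := by
    intro a j
    rw [hP, finsetSum_coeff, Finset.sum_eq_single j]
    · rw [coeff_C_mul, coeff_X_pow, if_pos rfl, mul_one]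
    · intro i _ hij
      rw [coeff_C_mul, coeff_X_pow, if_neg fun h => hij (Fin.ext h.symm), mul_zero]
    · intro h
      exact absurd (Finset.mem_univ j) h
  have hP0 : ∀ a, P a ≠ 0 := by
    intro a h0
    apply hne a
    ext1 j
    have h1 := hcoeff a j
    rw [h0, coeff_zero] at h1
    exact (hW (sub_eq_zero.1 h1.symm)).symm
  have hprod : ∏ a, P a ≠ 0 := Finset.prod_ne_zero_iff.2 fun a _ => hP0 a
  obtain ⟨c, hc⟩ := Infinite.exists_notMem_finset (∏ a, P a).roots.toFinset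
  refine ⟨fun i => c ^ (i : ℕ), fun a h => hc ?_⟩
  rw [Multiset.mem_toFinset, mem_roots hprod, IsRoot.def, eval_prod]
  refine Finset.prod_eq_zero (Finset.mem_univ a) ?_
  rw [hP, eval_finsetSum, ← h]
  refine Finset.sum_congr rfl fun i _ => ?_
  rw [eval_mul, eval_C, eval_pow, eval_X, mul_comm]

/-- the second condition for admissible numberings -/
def A2 (𝒢 : Subgroup (Equiv.Perm (Fin e))) [Fintype 𝒢] (m : ℕ) (r : (Fin e → M) → M[X])
    (W : Fin e → M) : Prop :=
  ∀ ω : Fin e → M, r ω =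
    ∏ τ : 𝒢, (X - C (∑ i, ω i * ((m : M) * W ((τ : Equiv.Perm (Fin e)) i))))

/-- the admissible numberings form one orbit -/
theorem mem_of_adm [CharZero M] {𝒢 : Subgroup (Equiv.Perm (Fin e))} [Fintype 𝒢] {m : ℕ}
    (hm : m ≠ 0) {r : (Fin e → M) → M[X]} {W : Fin e → M} (hW : Function.Injective W)
    (h1 : A2 𝒢 m r W) {ρ : Equiv.Perm (Fin e)} (h2 : A2 𝒢 m r (fun i => W (ρ i))) : ρ ∈ 𝒢 := by
  by_contra hρ
  obtain ⟨ω, hω⟩ := exists_omega W hW ρ (fun τ : 𝒢 => (τ : Equiv.Perm (Fin e)))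
    (fun τ h => hρ (h ▸ τ.2))
  have hm' : (m : M) ≠ 0 := Nat.cast_ne_zero.2 hm
  have h3 := (h1 ω).symm.trans (h2 ω)
  have h4 := congrArg (eval (∑ i, ω i * ((m : M) * W (ρ i)))) h3
  rw [eval_prod, eval_prod] at h4
  rw [Finset.prod_eq_zero (f := fun τ : 𝒢 => eval (∑ i, ω i * ((m : M) * W (ρ i)))
    (X - C (∑ i, ω i * ((m : M) * W (ρ ((τ : Equiv.Perm (Fin e)) i))))))
    (Finset.mem_univ (1 : 𝒢)) (by
      rw [eval_sub, eval_X, eval_C, sub_eq_zero]
      rfl), Finset.prod_eq_zero_iff] at h4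
  obtain ⟨τ, -, hτ⟩ := h4
  rw [eval_sub, eval_X, eval_C, ← Finset.sum_sub_distrib] at hτ
  apply hω τ
  have h5 : (m : M) * ∑ i, ω i * (W (ρ i) - W ((τ : Equiv.Perm (Fin e)) i)) = 0 := by
    rw [Finset.mul_sum, ← hτ]
    refine Finset.sum_congr rfl fun i _ => ?_
    ring
  exact (mul_eq_zero.1 h5).resolve_left hm'

/-- two numberings of the roots -/
theorem exists_perm {K : Type} [Field K] {ψ : K →+* M} {f : Fin (e + 1) → K} {x x' : Fin e → M}
    (hx : Roots ψ f x) (hx' : Roots ψ f x') : ∃ ρ : Equiv.Perm (Fin e), ∀ i, x' i = x (ρ i) := by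
  classical
  have hlast : ψ (f (Fin.last e)) ≠ 0 := (_root_.map_ne_zero ψ).2 hx.1
  have hex : ∀ i, ∃ j, x' i = x j := by
    intro i
    have h1 := hx'.2.2.symm.trans hx.2.2
    have h2 := congrArg (eval (x' i)) h1
    rw [eval_mul, eval_mul, eval_prod, eval_prod, eval_C] at h2
    rw [Finset.prod_eq_zero (Finset.mem_univ i) (by simp), mul_zero, eq_comm, mul_eq_zero,
      Finset.prod_eq_zero_iff] at h2
    obtain ⟨j, -, hj⟩ := h2.resolve_left hlast
    rw [eval_sub, eval_X, eval_C, sub_eq_zero] at hj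
    exact ⟨j, hj⟩
  choose ρ hρ using hex
  have hinj : Function.Injective ρ := by
    intro i i' h
    apply hx'.2.1
    rw [hρ, hρ, h]
  exact ⟨Equiv.ofBijective ρ (Finite.injective_iff_bijective.1 hinj), hρ⟩

end

section

variable {K : Type} [Field K] {O : Type} [CommRing O] (φ : O →+* K) {k e : ℕ}

/-- automorphisms and the resolvent -/
theorem map_rg {m : ℕ} (R : Fin m → MvPolynomial (Fin k ⊕ Fin e) O) (t : Fin k → K)
    (ω : Fin e → AlgebraicClosure K) (τ : AlgebraicClosure K ≃ₐ[K] AlgebraicClosure K) :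
    (rg ((algebraMap K (AlgebraicClosure K)).comp φ) R
      (fun j => algebraMap K (AlgebraicClosure K) (t j)) ω).map
        (τ : AlgebraicClosure K →+* AlgebraicClosure K) =
      rg ((algebraMap K (AlgebraicClosure K)).comp φ) R
        (fun j => algebraMap K (AlgebraicClosure K) (t j)) (fun i => τ (ω i)) := by
  unfold rg
  rw [Polynomial.map_add, Polynomial.map_pow, map_X, Polynomial.map_sum]
  congr 1
  refine Finset.sum_congr rfl fun i _ => ?_
  rw [Polynomial.map_mul, map_C, Polynomial.map_pow, map_X]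
  congr 2
  rw [MvPolynomial.eval₂_comp_left]
  congr 1
  · ext a
    exact τ.commutes (φ a)
  · funext j
    rcases j with j | j
    · exact τ.commutes (t j)
    · rfl

end

theorem main : S_GRPG := by
  classical
  intro K _ _ k e h 𝒢 _ R t hyp
  obtain ⟨f, hf⟩ : ∃ f : Fin (e + 1) → K, f = ev (algebraMap (𝓞 K) K) h t := ⟨_, rfl⟩
  rw [← hf] at hyp ⊢
  obtain ⟨r, hr⟩ : ∃ r : (Fin e → AlgebraicClosure K) → (AlgebraicClosure K)[X], r = fun ω =>
      rg ((algebraMap K (AlgebraicClosure K)).comp (algebraMap (𝓞 K) K)) R.R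
        (fun j => algebraMap K (AlgebraicClosure K) (t j)) ω := ⟨_, rfl⟩
  have hA : ∀ W : Fin e → AlgebraicClosure K,
      Adm ((algebraMap K (AlgebraicClosure K)).comp (algebraMap (𝓞 K) K)) R
        (fun j => algebraMap K (AlgebraicClosure K) (t j)) W → A2 𝒢 R.m r W := by
    intro W hW ω
    rw [hr]
    exact hW.2 ω
  have hrτ : ∀ (τ : AlgebraicClosure K ≃ₐ[K] AlgebraicClosure K) ω,
      (r ω).map (τ : AlgebraicClosure K →+* AlgebraicClosure K) = r (fun i => τ (ω i)) := by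
    intro τ ω
    rw [hr]
    exact map_rg _ _ _ _ _
  obtain ⟨x, -, hx, hxA, -⟩ := hyp 1 𝒢.one_mem
  have hlast : algebraMap K (AlgebraicClosure K) (f (Fin.last e)) ≠ 0 :=
    (_root_.map_ne_zero _).2 hx.1
  obtain ⟨W, hW⟩ : ∃ W : Fin e → AlgebraicClosure K, W = fun i =>
      algebraMap K (AlgebraicClosure K) (f (Fin.last e)) * x i := ⟨_, rfl⟩
  rw [← hW] at hxA
  have hWinj : Function.Injective W := by
    rw [hW]
    intro i j hij
    exact hx.2.1 (mul_left_cancel₀ hlast hij)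
  have hWA := hA W hxA
  let H : Subgroup (Equiv.Perm (Fin e)) :=
    { carrier := {σ | ∃ τ : AlgebraicClosure K ≃ₐ[K] AlgebraicClosure K, ∀ i, τ (x i) = x (σ i)}
      mul_mem' := by
        rintro a b ⟨τ, hτ⟩ ⟨τ', hτ'⟩
        refine ⟨τ * τ', fun i => ?_⟩
        rw [AlgEquiv.mul_apply, hτ', hτ, Equiv.Perm.mul_apply]
      one_mem' := ⟨1, fun i => rfl⟩
      inv_mem' := by
        rintro a ⟨τ, hτ⟩
        refine ⟨τ⁻¹, fun i => ?_⟩
        have h1 := hτ (a⁻¹ i)
        have h2 : a (a⁻¹ i) = i := by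
          rw [← Equiv.Perm.mul_apply, mul_inv_cancel, Equiv.Perm.one_apply]
        rw [h2] at h1
        rw [← h1, ← AlgEquiv.mul_apply, inv_mul_cancel, AlgEquiv.one_apply] }
  have hHmem : ∀ σ, σ ∈ H ↔ ∃ τ : AlgebraicClosure K ≃ₐ[K] AlgebraicClosure K,
      ∀ i, τ (x i) = x (σ i) := fun σ => Iff.rfl
  -- `H` is contained in `𝒢`
  have hle : H ≤ 𝒢 := by
    rintro σ ⟨τ, hτ⟩
    refine mem_of_adm R.m_ne hWinj hWA (ρ := σ) fun ω => ?_
    have h1 := hWA (fun i => τ.symm (ω i))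
    have h2 := congrArg (Polynomial.map (τ : AlgebraicClosure K →+* AlgebraicClosure K)) h1
    rw [hrτ] at h2
    simp only [AlgEquiv.apply_symm_apply] at h2
    rw [h2, Polynomial.map_prod]
    refine Finset.prod_congr rfl fun τ' _ => ?_
    rw [Polynomial.map_sub, map_X, map_C, map_sum]
    congr 2
    refine Finset.sum_congr rfl fun i _ => ?_
    rw [map_mul, map_mul, map_natCast]
    congr 1
    · exact τ.apply_symm_apply (ω i)
    · congr 1
      rw [hW]
      show τ (algebraMap K (AlgebraicClosure K) (f (Fin.last e)) * x _) = _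
      rw [map_mul, AlgEquiv.commutes, hτ]
  -- Jordan
  have htop : H.subgroupOf 𝒢 = ⊤ := by
    apply top_of_conj
    rintro ⟨σ, hσ⟩
    obtain ⟨x', τ, hx', hxA', hτ⟩ := hyp σ hσ
    obtain ⟨ρ, hρ⟩ := exists_perm hx hx'
    have hρ𝒢 : ρ ∈ 𝒢 := by
      refine mem_of_adm R.m_ne hWinj hWA (ρ := ρ) ?_
      have h1 := hA _ hxA'
      have h2 : (fun i => algebraMap K (AlgebraicClosure K) (f (Fin.last e)) * x' i) =
          fun i => W (ρ i) := by
        funext i
        rw [hW, hρ]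
      rwa [h2] at h1
    refine ⟨⟨ρ, hρ𝒢⟩⁻¹, ?_⟩
    rw [Subgroup.mem_subgroupOf, hHmem]
    refine ⟨τ, fun i => ?_⟩
    have h1 := hτ (ρ⁻¹ i)
    rw [hρ, hρ] at h1
    have h2 : ρ (ρ⁻¹ i) = i := by
      rw [← Equiv.Perm.mul_apply, mul_inv_cancel, Equiv.Perm.one_apply]
    rw [h2] at h1
    rw [h1]
    rfl
  refine ⟨x, hx, fun σ => ⟨fun hσ => ?_, fun hσ => hle hσ⟩⟩
  have h1 : (⟨σ, hσ⟩ : 𝒢) ∈ H.subgroupOf 𝒢 := by
    rw [htop]
    exact Subgroup.mem_top _
  exact (hHmem σ).1 (Subgroup.mem_subgroupOf.1 h1)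

end Pool.Agent.N768.HG.GRPG
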